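import Pool.Agent.D0H64.MX.Stm

/-!
# Module CMI of MX: the different of a compositum
-/

set_option autoImplicit false

open NumberField

namespace Pool.Agent.D0H35.MX

open Pool.Agent.D0H64.MX

/-- membership in the different -/
lemma mem_different_iff (A K L B : Type) [CommRing A] [Field K] [CommRing B] [Field L] [Algebra A K]
    [Algebra B L] [Algebra A B] [Algebra K L] [Algebra A L] [IsScalarTower A K L]
    [IsScalarTower A B L] [IsDomain A] [IsFractionRing A K] [FiniteDimensional K L]
    [Algebra.IsSeparable K L] [IsIntegralClosure B A L] [IsIntegrallyClosed A] [IsDedekindDomain B]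
    [Module.IsTorsionFree A B] [IsFractionRing B L] (d : B) :
    d ∈ differentIdeal A B ↔ ∀ y : L,
      (∀ z : B, Algebra.trace K L (y * algebraMap B L z) ∈ (algebraMap A K).range) →
      ∃ w : B, algebraMap B L w = algebraMap B L d * y := by
  have hne : (1 : FractionalIdeal (nonZeroDivisors B) L) ≠ 0 := one_ne_zero
  have h0 : FractionalIdeal.dual A K (1 : FractionalIdeal (nonZeroDivisors B) L) ≠ 0 :=
    FractionalIdeal.dual_ne_zero A K hne
  have h1 : d ∈ differentIdeal A B ↔ algebraMap B L d ∈
      ((differentIdeal A B : Ideal B) : FractionalIdeal (nonZeroDivisors B) L) := by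
    rw [FractionalIdeal.mem_coeIdeal]
    constructor
    · intro h
      exact ⟨d, h, rfl⟩
    · rintro ⟨x, hx, hxd⟩
      have : x = d := IsFractionRing.injective B L hxd
      rwa [← this]
  rw [h1, coeIdeal_differentIdeal A K L B, FractionalIdeal.mem_inv_iff h0]
  constructor
  · intro h y hy
    have h2 : y ∈ FractionalIdeal.dual A K (1 : FractionalIdeal (nonZeroDivisors B) L) := by
      rw [FractionalIdeal.mem_dual hne]
      intro a ha
      obtain ⟨z, rfl⟩ := (FractionalIdeal.mem_one_iff _).mp ha
      rw [Algebra.traceForm_apply]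
      exact hy z
    exact (FractionalIdeal.mem_one_iff _).mp (h y h2)
  · intro h y hy
    rw [FractionalIdeal.mem_dual hne] at hy
    refine (FractionalIdeal.mem_one_iff _).mpr (h y ?_)
    intro z
    have := hy (algebraMap B L z) ((FractionalIdeal.mem_one_iff _).mpr ⟨z, rfl⟩)
    rwa [Algebra.traceForm_apply] at this

open scoped Classical in
/-- the two families of conjugates of dual bases are dual -/
lemma dual_embeddings {E' Ω : Type} [Field E'] [NumberField E'] [Field Ω] [Algebra ℚ Ω]
    [IsAlgClosed Ω] {ι : Type} [Fintype ι] [DecidableEq ι] (b : Module.Basis ι ℚ E')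
    (τ τ' : E' →ₐ[ℚ] Ω) :
    ∑ i, τ (b i) * τ' (b.traceDual i) = if τ = τ' then 1 else 0 := by
  classical
  let A : Matrix (E' →ₐ[ℚ] Ω) ι Ω := fun τ i => τ (b i)
  let B : Matrix ι (E' →ₐ[ℚ] Ω) Ω := fun i τ => τ (b.traceDual i)
  have hBA : B * A = 1 := by
    ext i j
    rw [Matrix.mul_apply]
    have h1 : ∑ τ : E' →ₐ[ℚ] Ω, B i τ * A τ j = algebraMap ℚ Ω (Algebra.trace ℚ E'
        (b.traceDual i * b j)) := by
      rw [trace_eq_sum_embeddings Ω]
      refine Finset.sum_congr rfl fun τ _ => ?_
      simp [A, B]
    rw [h1, b.trace_traceDual_mul, Matrix.one_apply]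
    by_cases hij : i = j
    · subst hij
      simp
    · rw [if_neg hij, if_neg (fun h => hij h.symm), map_zero]
  have hcard : Fintype.card ι = Fintype.card (E' →ₐ[ℚ] Ω) := by
    rw [AlgHom.card ℚ E' Ω, Module.finrank_eq_card_basis b]
  have hAB : A * B = 1 := (Matrix.mul_eq_one_comm_of_card_eq _ _ _ hcard).mp hBA
  have := congrFun (congrFun hAB τ) τ'
  rw [Matrix.mul_apply, Matrix.one_apply] at this
  exact this

/-- expansion in the dual basis, over the other field -/
lemma expand {L E E' : Type} [Field L] [NumberField L] [Field E] [NumberField E] [Field E']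
    [NumberField E'] [Algebra E L] [Algebra E' L]
    (hgen : ∀ F : IntermediateField ℚ L, (∀ x : E, algebraMap E L x ∈ F) →
      (∀ x : E', algebraMap E' L x ∈ F) → F = ⊤)
    {ι : Type} [Fintype ι] [DecidableEq ι] (b : Module.Basis ι ℚ E') (y : L) :
    y = ∑ i, algebraMap E L (Algebra.trace E L (y * algebraMap E' L (b i))) *
      algebraMap E' L (b.traceDual i) := by
  classical
  let Ω := AlgebraicClosure L
  have : Module.Finite E L := Module.Finite.of_restrictScalars_finite ℚ E L
  let j : L →+* Ω := algebraMap L Ω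
  have hj : Function.Injective j := j.injective
  let σ0 : L →ₐ[E] Ω := IsScalarTower.toAlgHom E L Ω
  have hσ0 : ∀ x, σ0 x = j x := fun x => rfl
  let rs : (L →ₐ[E] Ω) → (E' →ₐ[ℚ] Ω) := fun σ =>
    RingHom.toRatAlgHom ((σ : L →+* Ω).comp (algebraMap E' L))
  have hrs : ∀ σ x, rs σ x = σ (algebraMap E' L x) := fun σ x => rfl
  have hinj : ∀ σ : L →ₐ[E] Ω, rs σ = rs σ0 ↔ σ = σ0 := by
    intro σ
    constructor
    · intro h
      let F : IntermediateField ℚ L :=
        { carrier := {x | σ x = σ0 x}
          mul_mem' := fun {a b} ha hb => by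
            show σ (a * b) = σ0 (a * b)
            rw [map_mul, map_mul, show σ a = σ0 a from ha, show σ b = σ0 b from hb]
          add_mem' := fun {a b} ha hb => by
            show σ (a + b) = σ0 (a + b)
            rw [map_add, map_add, show σ a = σ0 a from ha, show σ b = σ0 b from hb]
          algebraMap_mem' := fun r => by
            show σ _ = σ0 _
            simp
          inv_mem' := fun a ha => by
            show σ _ = σ0 _
            rw [map_inv₀, map_inv₀, show σ a = σ0 a from ha] }
      have hF : F = ⊤ := by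
        apply hgen
        · intro x
          show σ _ = σ0 _
          rw [σ.commutes, σ0.commutes]
        · intro x
          show σ _ = σ0 _
          exact DFunLike.congr_fun h x
      ext x
      have : x ∈ F := by rw [hF]; exact IntermediateField.mem_top
      exact this
    · rintro rfl
      rfl
  apply hj
  rw [map_sum]
  have h1 : ∀ i, j (algebraMap E L (Algebra.trace E L (y * algebraMap E' L (b i))) *
      algebraMap E' L (b.traceDual i)) =
      ∑ σ : L →ₐ[E] Ω, σ y * (rs σ (b i) * rs σ0 (b.traceDual i)) := by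
    intro i
    rw [map_mul]
    have e1 : j (algebraMap E L (Algebra.trace E L (y * algebraMap E' L (b i)))) =
        algebraMap E Ω (Algebra.trace E L (y * algebraMap E' L (b i))) := rfl
    rw [e1, trace_eq_sum_embeddings Ω, Finset.sum_mul]
    refine Finset.sum_congr rfl fun σ _ => ?_
    rw [map_mul, hrs, hrs, hσ0]
    ring
  rw [Finset.sum_congr rfl (fun i _ => h1 i), Finset.sum_comm]
  have h2 : ∀ σ : L →ₐ[E] Ω, ∑ i, σ y * (rs σ (b i) * rs σ0 (b.traceDual i)) =
      if σ = σ0 then σ y else 0 := by
    intro σ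
    rw [← Finset.mul_sum, dual_embeddings b (rs σ) (rs σ0)]
    simp only [hinj]
    split_ifs <;> simp
  rw [Finset.sum_congr rfl (fun σ _ => h2 σ), Finset.sum_ite_eq' Finset.univ σ0]
  simp [hσ0]

theorem t_CMI : S_CMI := by
  intro L E E' _ _ _ _ _ _ _ _ hgen
  have : Module.Finite E L := Module.Finite.of_restrictScalars_finite ℚ E L
  rw [Ideal.map_le_iff_le_comap]
  intro d hd
  rw [Ideal.mem_comap]
  rw [mem_different_iff ℤ ℚ E' (𝓞 E')] at hd
  rw [mem_different_iff (𝓞 E) E L (𝓞 L)]
  intro y hy
  classical
  have hb : ∀ i, ∃ w : 𝓞 E', algebraMap (𝓞 E') E' w =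
      algebraMap (𝓞 E') E' d * (integralBasis E').traceDual i := by
    intro i
    apply hd
    intro z
    -- `z` is an integral combination of the basis
    have hz := (RingOfIntegers.basis E').sum_repr z
    have : algebraMap (𝓞 E') E' z = ∑ k, ((RingOfIntegers.basis E').repr z k : ℚ) •
        integralBasis E' k := by
      conv_lhs => rw [← hz]
      rw [map_sum]
      refine Finset.sum_congr rfl fun k _ => ?_
      rw [integralBasis_apply]
      simp only [zsmul_eq_mul, map_mul, map_intCast]
      rw [Algebra.smul_def]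
      simp
    rw [this, Finset.mul_sum, map_sum]
    refine Subring.sum_mem _ fun k _ => ?_
    rw [mul_smul_comm, map_smul, Module.Basis.trace_traceDual_mul]
    split_ifs
    · exact ⟨(RingOfIntegers.basis E').repr z k, by simp⟩
    · exact ⟨0, by simp⟩
  choose w hw using hb
  have ht : ∀ i, ∃ t : 𝓞 E, algebraMap (𝓞 E) E t =
      Algebra.trace E L (y * algebraMap E' L (integralBasis E' i)) := by
    intro i
    have := hy (algebraMap (𝓞 E') (𝓞 L) (RingOfIntegers.basis E' i))
    rw [integralBasis_apply]
    exact this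
  choose t ht using ht
  refine ⟨∑ i, algebraMap (𝓞 E) (𝓞 L) (t i) * algebraMap (𝓞 E') (𝓞 L) (w i), ?_⟩
  rw [map_sum]
  conv_rhs => rw [expand hgen (integralBasis E') y, Finset.mul_sum]
  refine Finset.sum_congr rfl fun i _ => ?_
  rw [map_mul]
  have e1 : algebraMap (𝓞 L) L (algebraMap (𝓞 E) (𝓞 L) (t i)) =
      algebraMap E L (algebraMap (𝓞 E) E (t i)) := rfl
  have e2 : algebraMap (𝓞 L) L (algebraMap (𝓞 E') (𝓞 L) (w i)) =
      algebraMap E' L (algebraMap (𝓞 E') E' (w i)) := rfl
  have e3 : algebraMap (𝓞 L) L (algebraMap (𝓞 E') (𝓞 L) d) =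
      algebraMap E' L (algebraMap (𝓞 E') E' d) := rfl
  rw [e1, e2, e3, ht i, hw i, map_mul (algebraMap E' L)]
  ring

end Pool.Agent.D0H35.MX

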