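import Pool.Agent.D0H64.MX.Stm3
import Pool.Agent.TH228.J3101

/-!
# Module FEWS of MX: few fields for `S_m` acting on `X`, over `ℚ`
-/

set_option autoImplicit false
set_option linter.unusedSectionVars false

namespace Pool.Agent.D0H35.MX

open NumberField Filter Topology Pool.Agent.TH444.ML Pool.Agent.D0H64.MX
open Pool.Agent.TH228.J3101 (nf dsc_eq)

theorem stab_core (m : ℕ) (i : Fin m) :
    (MulAction.stabilizer (Equiv.Perm (Fin m)) i).normalCore = ⊥ := by
  rw [eq_bot_iff]
  intro g hg
  rw [Subgroup.mem_bot]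
  ext j
  have h1 : Equiv.swap i j * g * (Equiv.swap i j)⁻¹ ∈ MulAction.stabilizer (Equiv.Perm (Fin m)) i :=
    hg (Equiv.swap i j)
  rw [MulAction.mem_stabilizer_iff, Equiv.Perm.smul_def, Equiv.swap_inv, Equiv.Perm.mul_apply, Equiv.Perm.mul_apply,
    Equiv.swap_apply_left] at h1
  have h2 : g j = Equiv.swap i j i := by
    have h3 := congrArg (Equiv.swap i j) h1
    rwa [Equiv.swap_apply_self] at h3
  rw [h2, Equiv.swap_apply_left]
  rfl

section
variable {K Ω : Type} [Field K] [NumberField K] [Field Ω] [Algebra K Ω]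

lemma one_le_dsc2 (M : IntermediateField K Ω) : 1 ≤ dsc M := by
  unfold dsc
  split_ifs with h
  · have : (1 : ℤ) ≤ |@discr M _ h| := Int.one_le_abs (@discr_ne_zero M _ h)
    exact_mod_cast this
  · exact le_rfl

theorem main2 (M : IntermediateField K Ω) [FiniteDimensional K M]
    [IsGalois K M] {H : Type} [Group H] [Finite H] (e : (M ≃ₐ[K] M) ≃* H) (U : Subgroup H)
    (hU : U.normalCore = ⊥) :
    ∃ F0 : IntermediateField K M, F0.fixingSubgroup.map e.toMonoidHom = U ∧
      FiniteDimensional K (IntermediateField.lift F0) ∧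
      Module.finrank K (IntermediateField.lift F0) = U.index ∧
      ∀ N : IntermediateField K Ω, Normal K N → IntermediateField.lift F0 ≤ N → N ≤ M → N = M := by
  set V : Subgroup (M ≃ₐ[K] M) := U.comap e.toMonoidHom with hV
  have hmap : V.map e.toMonoidHom = U := Subgroup.map_comap_eq_self_of_surjective e.surjective U
  have hcV : Nat.card V = Nat.card U :=
    Nat.card_congr (e.subgroupMap V |>.trans (MulEquiv.subgroupCongr (by
      rw [hV]
      ext x
      simp only [Subgroup.mem_map, Subgroup.mem_comap]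
      constructor
      · rintro ⟨y, hy, rfl⟩; exact hy
      · intro hx; exact ⟨e.symm x, by simpa using hx, by simp⟩))).toEquiv
  set F0 : IntermediateField K M := IntermediateField.fixedField V with hF0
  have h1 : Module.finrank F0 M = Nat.card U := by
    rw [hF0, IntermediateField.finrank_fixedField_eq_card, hcV]
  have h2 : Module.finrank K F0 = U.index := by
    have h3 := Module.finrank_mul_finrank K F0 M
    rw [h1, ← IsGalois.card_aut_eq_finrank K M, Nat.card_congr e.toEquiv,
      ← Subgroup.index_mul_card U] at h3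
    exact Nat.eq_of_mul_eq_mul_right Nat.card_pos h3
  have hfd : FiniteDimensional K (IntermediateField.lift F0) :=
    (IntermediateField.liftAlgEquiv F0).toLinearEquiv.finiteDimensional
  have hfix : F0.fixingSubgroup = V := IntermediateField.fixingSubgroup_fixedField V
  refine ⟨F0, by rw [hfix, hmap], hfd, ?_, ?_⟩
  · rw [← (IntermediateField.liftAlgEquiv F0).toLinearEquiv.finrank_eq, h2]
  · intro N hN hFN hNM
    set N' : IntermediateField K M := IntermediateField.restrict hNM with hN'
    have hnor : Normal K N' := Normal.of_algEquiv (IntermediateField.restrictAlgEquiv hNM)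
    have hgal : IsGalois K N' := ⟨⟩
    have hle : F0 ≤ N' := by
      intro x hx
      rw [hN', IntermediateField.mem_restrict]
      exact hFN ((IntermediateField.mem_lift x).2 hx)
    have h6 : N'.fixingSubgroup ≤ V := by
      have := IntermediateField.fixingSubgroup_le hle
      rwa [hF0, IntermediateField.fixingSubgroup_fixedField] at this
    have h7 : N'.fixingSubgroup.map e.toMonoidHom ≤ U.normalCore := by
      have hn : (N'.fixingSubgroup.map e.toMonoidHom).Normal :=
        Subgroup.Normal.map inferInstance _ e.surjective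
      rw [Subgroup.normal_le_normalCore, Subgroup.map_le_iff_le_comap]
      exact h6
    rw [hU, le_bot_iff, Subgroup.map_eq_bot_iff_of_injective _ e.injective] at h7
    have h8 : N' = ⊤ := by
      rw [← IsGalois.fixedField_fixingSubgroup N', h7, IntermediateField.fixedField_bot]
    apply le_antisymm hNM
    intro x hx
    have h9 : (⟨x, hx⟩ : M) ∈ N' := by rw [h8]; trivial
    exact (IntermediateField.mem_restrict hNM ⟨x, hx⟩).1 h9

theorem restrict_core [IsAlgClosure K Ω] (M N : IntermediateField K Ω)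
    [FiniteDimensional K N] [IsGalois K N] (hN : IntermediateField.normalClosure K M Ω = N) (hle : M ≤ N) :
    (IntermediateField.restrict hle).fixingSubgroup.normalCore = ⊥ := by
  set P : Subgroup (N ≃ₐ[K] N) := (IntermediateField.restrict hle).fixingSubgroup.normalCore with hP
  have hPn : P.Normal := Subgroup.normalCore_normal _
  have hg : IsGalois K (IntermediateField.fixedField P) := IsGalois.of_fixedField_normal_subgroup P
  have hn : Normal K (IntermediateField.fixedField P) := hg.to_normal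
  have hn2 : Normal K (IntermediateField.lift (IntermediateField.fixedField P)) :=
    Normal.of_algEquiv (IntermediateField.liftAlgEquiv _)
  have h1 : IntermediateField.restrict hle ≤ IntermediateField.fixedField P := by
    rw [IntermediateField.le_iff_le]
    exact Subgroup.normalCore_le _
  have h2 : M ≤ IntermediateField.lift (IntermediateField.fixedField P) := by
    intro x hx
    have h3 : (⟨x, hle hx⟩ : N) ∈ IntermediateField.restrict hle := (IntermediateField.mem_restrict hle _).2 hx
    exact (IntermediateField.mem_lift (⟨x, hle hx⟩ : N)).2 (h1 h3)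
  have hac : IsAlgClosed Ω := IsAlgClosure.isAlgClosed K
  have hnΩ : Normal K Ω := IsAlgClosure.normal K Ω
  have h4 : IntermediateField.normalClosure K M Ω ≤ IntermediateField.lift (IntermediateField.fixedField P) :=
    IntermediateField.normalClosure_le_iff_of_normal.2 h2
  rw [hN] at h4
  have h5 : IntermediateField.fixedField P = ⊤ := by
    rw [eq_top_iff]
    intro x _
    exact (IntermediateField.mem_lift x).1 (h4 x.2)
  have h6 := IntermediateField.fixingSubgroup_fixedField P
  rw [h5, IntermediateField.fixingSubgroup_top] at h6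
  exact h6.symm

/-- the comparison of discriminants over an arbitrary base -/
def CmpP (K Ω : Type) [Field K] [Field Ω] [Algebra K Ω] (m k W : ℕ) : Prop :=
  ∀ (N : IntermediateField K Ω) [FiniteDimensional K N] [IsGalois K N] [NumberField N]
    (r : (N ≃ₐ[K] N) ≃* Equiv.Perm (Fin m)) (M F : IntermediateField K N),
    M.fixingSubgroup.normalCore = ⊥ →
    (∃ i : Fin m, F.fixingSubgroup.map r.toMonoidHom = MulAction.stabilizer (Equiv.Perm (Fin m)) i) →
    ∀ (_ : NumberField F) (_ : NumberField M),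
    (NumberField.discr F).natAbs ^ Module.finrank K M ≤ W * (NumberField.discr M).natAbs ^ k

/-- the field `F` attached to `N` -/
theorem key [IsAlgClosure K Ω] (m k W : ℕ) (hm : 1 ≤ m) (hP : CmpP K Ω m k W)
    (N : IntermediateField K Ω) (hN : N ∈ Gal K Ω (Equiv.Perm (Fin m))) :
    ∃ F : IntermediateField K Ω, FiniteDimensional K F ∧ Module.finrank K F = m ∧ F ≤ N ∧
      (∀ N' : IntermediateField K Ω, Normal K N' → F ≤ N' → N' ≤ N → N' = N) ∧
      ∀ M : IntermediateField K Ω, FiniteDimensional K M → IntermediateField.normalClosure K M Ω = N →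
        dsc F ^ Module.finrank K M ≤ W * dsc M ^ k := by
  obtain ⟨hfd, hg, ⟨r⟩⟩ := hN
  have i0 : Fin m := ⟨0, hm⟩
  obtain ⟨F0, h1, h2, h3, h4⟩ := main2 N r (MulAction.stabilizer (Equiv.Perm (Fin m)) i0) (stab_core m i0)
  have hNn : NumberField N := nf N
  have hidx : (MulAction.stabilizer (Equiv.Perm (Fin m)) i0).index = m := by
    rw [MulAction.index_stabilizer_of_transitive, Nat.card_eq_fintype_card, Fintype.card_fin]
  refine ⟨IntermediateField.lift F0, h2, by rw [h3, hidx], IntermediateField.lift_le _, h4, ?_⟩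
  intro M hMfd hMN
  have hac : IsAlgClosed Ω := IsAlgClosure.isAlgClosed K
  have hnΩ : Normal K Ω := IsAlgClosure.normal K Ω
  have hle : M ≤ N := by
    rw [← hMN]
    exact IntermediateField.le_normalClosure M
  have hnF0 : NumberField F0 := NumberField.of_module_finite K F0
  have hnM0 : NumberField (IntermediateField.restrict hle) := NumberField.of_module_finite K _
  have hnM : NumberField M := nf M
  have hnF : NumberField (IntermediateField.lift F0) := nf _
  have h5 := hP N r (IntermediateField.restrict hle) F0 (restrict_core M N hMN hle) ⟨i0, h1⟩ hnF0 hnM0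
  have e1 : discr (IntermediateField.lift F0) = discr F0 :=
    (discr_eq_discr_of_ringEquiv F0 (IntermediateField.liftAlgEquiv F0).toRingEquiv).symm
  have e2 : discr M = discr (IntermediateField.restrict hle) :=
    discr_eq_discr_of_ringEquiv M (IntermediateField.restrictAlgEquiv hle).toRingEquiv
  have e3 : Module.finrank K (IntermediateField.restrict hle) = Module.finrank K M :=
    ((IntermediateField.restrictAlgEquiv hle).toLinearEquiv.finrank_eq).symm
  rw [dsc_eq, dsc_eq, e1, e2]
  rw [e3] at h5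
  exact_mod_cast h5

end

/-- dyadic blocks -/
theorem dyadic {T : Type} (g : T → ℝ) (hg : ∀ t, 1 ≤ g t) (C e τ : ℝ) (hτ : e < τ)
    (hC : ∀ Z : ℝ, 1 ≤ Z → {t | g t ≤ Z}.Finite ∧ (Set.ncard {t | g t ≤ Z} : ℝ) ≤ C * Z ^ e)
    (hτ0 : 0 ≤ τ) :
    Summable (fun t => (g t) ^ (-τ)) := by
  classical
  let J : T → ℕ := fun t => Nat.log 2 ⌊g t⌋₊
  have hfl : ∀ t, 1 ≤ ⌊g t⌋₊ := fun t => Nat.le_floor (by simpa using hg t)
  have hJ1 : ∀ t, (2 : ℝ) ^ J t ≤ g t := by
    intro t
    have h1 : 2 ^ J t ≤ ⌊g t⌋₊ := Nat.pow_log_le_self 2 (Nat.one_le_iff_ne_zero.1 (hfl t))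
    have h2 : ((⌊g t⌋₊ : ℕ) : ℝ) ≤ g t := Nat.floor_le (by linarith [hg t])
    refine le_trans ?_ h2
    exact_mod_cast h1
  have hJ2 : ∀ t, g t ≤ (2 : ℝ) ^ (J t + 1) := by
    intro t
    have h1 : ⌊g t⌋₊ < 2 ^ (J t + 1) := Nat.lt_pow_succ_log_self (by norm_num) _
    have h2 : ⌊g t⌋₊ + 1 ≤ 2 ^ (J t + 1) := h1
    have h3 : g t < (⌊g t⌋₊ : ℝ) + 1 := Nat.lt_floor_add_one _
    have h4 : ((⌊g t⌋₊ : ℝ) + 1) ≤ (2 : ℝ) ^ (J t + 1) := by exact_mod_cast h2
    linarith
  have hpw : ∀ (n : ℕ) (x : ℝ), ((2 : ℝ) ^ n) ^ x = ((2 : ℝ) ^ x) ^ n := by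
    intro n x
    rw [← Real.rpow_natCast, ← Real.rpow_natCast, ← Real.rpow_mul (by norm_num), ← Real.rpow_mul (by norm_num),
      mul_comm]
  set ρ : ℝ := (2 : ℝ) ^ (e - τ) with hρ
  have hρ0 : 0 ≤ ρ := by positivity
  have hρ1 : ρ < 1 := Real.rpow_lt_one_of_one_lt_of_neg (by norm_num) (by linarith)
  have hρe : ρ = (2 : ℝ) ^ e * (2 : ℝ) ^ (-τ) := by
    rw [hρ, ← Real.rpow_add (by norm_num)]
    congr 1
  have hgeo : Summable (fun j : ℕ => ρ ^ j) := summable_geometric_of_lt_one hρ0 hρ1
  refine summable_of_sum_le (c := |C| * (2 : ℝ) ^ e * ∑' j : ℕ, ρ ^ j)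
    (fun t => Real.rpow_nonneg (by linarith [hg t]) _) ?_
  intro s
  calc ∑ t ∈ s, (g t) ^ (-τ)
      = ∑ j ∈ s.image J, ∑ t ∈ s with J t = j, (g t) ^ (-τ) :=
        (Finset.sum_fiberwise_of_maps_to (fun t ht => Finset.mem_image_of_mem J ht) _).symm
    _ ≤ ∑ j ∈ s.image J, |C| * (2 : ℝ) ^ e * ρ ^ j := by
        refine Finset.sum_le_sum fun j _ => ?_
        have e1 : ∑ t ∈ s with J t = j, (g t) ^ (-τ) ≤
            ((s.filter (fun t => J t = j)).card : ℝ) * ((2 : ℝ) ^ j) ^ (-τ) := by
          rw [← nsmul_eq_mul]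
          refine Finset.sum_le_card_nsmul _ _ _ fun t ht => ?_
          rw [Finset.mem_filter] at ht
          refine Real.rpow_le_rpow_of_nonpos (by positivity) ?_ (by linarith)
          rw [← ht.2]
          exact hJ1 t
        have e2 : ((s.filter (fun t => J t = j)).card : ℝ) ≤ |C| * ((2 : ℝ) ^ (j + 1)) ^ e := by
          obtain ⟨hfin, hle⟩ := hC ((2 : ℝ) ^ (j + 1)) (one_le_pow₀ (by norm_num))
          have h1 : (s.filter (fun t => J t = j)).card ≤ Set.ncard {t | g t ≤ (2 : ℝ) ^ (j + 1)} := by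
            rw [← Set.ncard_coe_finset]
            refine Set.ncard_le_ncard ?_ hfin
            intro t ht
            rw [Finset.mem_coe, Finset.mem_filter] at ht
            change g t ≤ (2 : ℝ) ^ (j + 1)
            rw [← ht.2]
            exact hJ2 t
          have h2 : ((s.filter (fun t => J t = j)).card : ℝ) ≤ Set.ncard {t | g t ≤ (2 : ℝ) ^ (j + 1)} := by
            exact_mod_cast h1
          refine (h2.trans hle).trans ?_
          exact mul_le_mul_of_nonneg_right (le_abs_self C) (by positivity)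
        refine e1.trans ((mul_le_mul_of_nonneg_right e2 (by positivity)).trans (le_of_eq ?_))
        rw [hpw, hpw, pow_succ, hρe, mul_pow]
        ring
    _ = |C| * (2 : ℝ) ^ e * ∑ j ∈ s.image J, ρ ^ j := by rw [Finset.mul_sum]
    _ ≤ |C| * (2 : ℝ) ^ e * ∑' j : ℕ, ρ ^ j :=
        mul_le_mul_of_nonneg_left (hgeo.sum_le_tsum _ (fun j _ => by positivity)) (by positivity)

theorem fews_gen (hN : S_NBD) (hfib : S_FIB) (K Ω : Type) [Field K] [NumberField K] [Field Ω] [Algebra K Ω]
    [IsAlgClosure K Ω] (X : Type) (m k W : ℕ) [Finite X] [Nonempty X] [MulAction (Equiv.Perm (Fin m)) X]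
    [FaithfulSMul (Equiv.Perm (Fin m)) X] (hm : 1 ≤ m) (hk : 1 ≤ k) (hP : CmpP K Ω m k W) (e : ℝ) (_he : 0 ≤ e)
    (hC : Cnte K Ω m e) (hcard : 4 * (k : ℝ) * e < 5 * Nat.card X) :
    Summable (fun M : GalX K Ω (Equiv.Perm (Fin m)) X => (dsc M.1) ^ (-(5 / 4) : ℝ)) := by
  classical
  have hfX : Fintype X := Fintype.ofFinite X
  have hac : IsAlgClosed Ω := IsAlgClosure.isAlgClosed K
  have key1 := fun M : GalX K Ω (Equiv.Perm (Fin m)) X => hN K Ω (Equiv.Perm (Fin m)) X Finset.univ
    Finset.univ_nonempty (fun h hh => FaithfulSMul.eq_of_smul_eq_smul (α := X) fun x => by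
      rw [hh x (Finset.mem_univ x), one_smul]) M.1 M.2
  let N : GalX K Ω (Equiv.Perm (Fin m)) X → Gal K Ω (Equiv.Perm (Fin m)) := fun M =>
    ⟨IntermediateField.normalClosure K M.1 Ω, (key1 M).1⟩
  choose F hfd hfr hFN hNo hcmp using fun n : Gal K Ω (Equiv.Perm (Fin m)) => key m k W hm hP n.1 n.2
  have inj : Function.Injective F := by
    intro M1 M2 h12
    have g1 : IsGalois K M1.1 := M1.2.2.1
    have g2 : IsGalois K M2.1 := M2.2.2.1
    have hn : Normal K (M1.1 ⊓ M2.1 : IntermediateField K Ω) := inferInstance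
    have e1 := hNo M1 (M1.1 ⊓ M2.1) hn (le_inf (hFN M1) (by rw [h12]; exact hFN M2)) inf_le_left
    have e2 := hNo M2 (M1.1 ⊓ M2.1) hn (le_inf (by rw [← h12]; exact hFN M1) (hFN M2)) inf_le_right
    exact Subtype.ext (e1.symm.trans e2)
  have hkpos : (0 : ℝ) < k := by exact_mod_cast hk
  set c : ℝ := 5 / (4 * k) with hc
  have hc0 : 0 ≤ c := by positivity
  set τ : ℝ := Nat.card X * c with hτ
  have hτ0 : 0 ≤ τ := by positivity
  have hτe : e < τ := by
    rw [hτ, hc, mul_div_assoc', lt_div_iff₀ (by positivity)]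
    linarith
  let G : Gal K Ω (Equiv.Perm (Fin m)) → ℝ := fun n => (dsc (F n)) ^ (-τ)
  have hG0 : ∀ n, 0 ≤ G n := fun n => Real.rpow_nonneg (zero_le_one.trans (one_le_dsc2 (F n))) _
  have hsum : Summable G := by
    obtain ⟨C, hC⟩ := hC
    refine dyadic (fun n => dsc (F n)) (fun n => one_le_dsc2 _) C e τ hτe ?_ hτ0
    intro Z hZ
    obtain ⟨hfin, hle⟩ := hC Z hZ
    have hsub : Set.MapsTo F {n | dsc (F n) ≤ Z} {F : IntermediateField K Ω |
        FiniteDimensional K F ∧ Module.finrank K F = m ∧ dsc F ≤ Z} :=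
      fun n hn => ⟨hfd n, hfr n, hn⟩
    refine ⟨Set.Finite.of_injOn hsub inj.injOn hfin, ?_⟩
    refine le_trans ?_ hle
    exact_mod_cast Set.ncard_le_ncard_of_injOn F hsub inj.injOn hfin
  -- the degree
  have hdeg : ∀ M : GalX K Ω (Equiv.Perm (Fin m)) X, Module.finrank K M.1 = Nat.card X := by
    rintro ⟨M, hMfd, f, -, -⟩
    change Module.finrank K M = Nat.card X
    rw [← AlgHom.card K M Ω, ← Nat.card_eq_fintype_card]
    exact Nat.card_congr f
  set Wc : ℝ := (W : ℝ) ^ c with hWc
  have hWc0 : 0 ≤ Wc := by positivity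
  have hbound : ∀ M : GalX K Ω (Equiv.Perm (Fin m)) X, (dsc M.1) ^ (-(5 / 4) : ℝ) ≤ Wc * G (N M) := by
    intro M
    have h1 := hcmp (N M) M.1 M.2.1 rfl
    rw [hdeg M] at h1
    have ha : 1 ≤ dsc (F (N M)) := one_le_dsc2 _
    have hb : 1 ≤ dsc M.1 := one_le_dsc2 _
    set a : ℝ := dsc (F (N M)) with hadef
    set b : ℝ := dsc M.1 with hbdef
    have ha0 : 0 < a := by linarith
    have hb0 : 0 < b := by linarith
    have haX : 1 ≤ a ^ Nat.card X := one_le_pow₀ ha
    have hW0 : (0 : ℝ) < W := by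
      rcases Nat.eq_zero_or_pos W with h | h
      · rw [h] at h1
        simp only [Nat.cast_zero, zero_mul] at h1
        linarith
      · exact_mod_cast h
    have h2 : ((W : ℝ) * b ^ k) ^ (-c) ≤ (a ^ Nat.card X) ^ (-c) :=
      Real.rpow_le_rpow_of_nonpos (by positivity) h1 (by linarith)
    have h3 : (a ^ Nat.card X) ^ (-c) = a ^ (-τ) := by
      rw [← Real.rpow_natCast, ← Real.rpow_mul ha0.le, hτ]
      congr 1
      ring
    have h4 : ((W : ℝ) * b ^ k) ^ (-c) = (W : ℝ) ^ (-c) * b ^ (-(5 / 4) : ℝ) := by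
      rw [Real.mul_rpow hW0.le (by positivity), ← Real.rpow_natCast b, ← Real.rpow_mul hb0.le]
      congr 2
      rw [hc]
      field_simp
    rw [h3, h4] at h2
    have h5 : Wc * ((W : ℝ) ^ (-c) * b ^ (-(5 / 4) : ℝ)) = b ^ (-(5 / 4) : ℝ) := by
      rw [hWc, ← mul_assoc, ← Real.rpow_add hW0, add_neg_cancel, Real.rpow_zero, one_mul]
    rw [← h5]
    exact mul_le_mul_of_nonneg_left h2 hWc0
  refine Summable.of_nonneg_of_le
    (fun M => Real.rpow_nonneg (zero_le_one.trans (one_le_dsc2 M.1)) _) hbound ?_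
  refine Summable.mul_left Wc ?_
  refine summable_of_sum_le (c := (2 : ℝ) ^ Nat.card (Equiv.Perm (Fin m)) * ∑' n, G n) (fun M => hG0 _) ?_
  intro s
  calc ∑ M ∈ s, G (N M)
      = ∑ n ∈ s.image N, ∑ M ∈ s with N M = n, G (N M) :=
        (Finset.sum_fiberwise_of_maps_to (fun M hM => Finset.mem_image_of_mem N hM) _).symm
    _ ≤ ∑ n ∈ s.image N, (2 : ℝ) ^ Nat.card (Equiv.Perm (Fin m)) * G n := by
        refine Finset.sum_le_sum fun n _ => ?_
        have e1 : ∑ M ∈ s with N M = n, G (N M) =
            ((s.filter (fun M => N M = n)).card : ℝ) * G n := by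
          rw [Finset.sum_congr rfl (g := fun _ => G n), Finset.sum_const, nsmul_eq_mul]
          intro M hM
          rw [(Finset.mem_filter.1 hM).2]
        rw [e1]
        refine mul_le_mul_of_nonneg_right ?_ (hG0 n)
        obtain ⟨hfin, hle⟩ := hfib K Ω (Equiv.Perm (Fin m)) n.1 n.2
        have h1 : (s.filter (fun M => N M = n)).card ≤
            Set.ncard {M : IntermediateField K Ω | M ≤ n.1} := by
          have h2 : ((s.filter (fun M => N M = n)).map ⟨Subtype.val, Subtype.val_injective⟩).card ≤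
              Set.ncard {M : IntermediateField K Ω | M ≤ n.1} := by
            rw [← Set.ncard_coe_finset]
            refine Set.ncard_le_ncard ?_ hfin
            intro x hx
            rw [Finset.mem_coe, Finset.mem_map] at hx
            obtain ⟨M, hM, rfl⟩ := hx
            have h3 := (Finset.mem_filter.1 hM).2
            change M.1 ≤ n.1
            rw [← h3]
            exact IntermediateField.le_normalClosure M.1
          rwa [Finset.card_map] at h2
        exact_mod_cast h1.trans hle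
    _ = (2 : ℝ) ^ Nat.card (Equiv.Perm (Fin m)) * ∑ n ∈ s.image N, G n := by rw [Finset.mul_sum]
    _ ≤ (2 : ℝ) ^ Nat.card (Equiv.Perm (Fin m)) * ∑' n, G n :=
        mul_le_mul_of_nonneg_left (hsum.sum_le_tsum _ (fun n _ => hG0 n)) (by positivity)

/-- the comparison for an arbitrary structure of algebra over `ℚ` -/
theorem cmpd_any (C m W : ℕ) (h : ∀ (N : Type) [Field N] [NumberField N] [IsGalois ℚ N]
    (r : (N ≃ₐ[ℚ] N) ≃* Equiv.Perm (Fin m)) (M F : IntermediateField ℚ N),
    M.fixingSubgroup.normalCore = ⊥ →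
    (∃ i : Fin m, F.fixingSubgroup.map r.toMonoidHom = MulAction.stabilizer (Equiv.Perm (Fin m)) i) →
    (NumberField.discr F).natAbs ^ Module.finrank ℚ M ≤
      W * (NumberField.discr M).natAbs ^ C)
    (N : Type) [Field N] [NumberField N] [A : Algebra ℚ N] [hG : IsGalois ℚ N]
    (r : (N ≃ₐ[ℚ] N) ≃* Equiv.Perm (Fin m)) (M F : IntermediateField ℚ N)
    (h1 : M.fixingSubgroup.normalCore = ⊥)
    (h2 : ∃ i : Fin m, F.fixingSubgroup.map r.toMonoidHom = MulAction.stabilizer (Equiv.Perm (Fin m)) i)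
    (hnF : NumberField F) (hnM : NumberField M) :
    (NumberField.discr F).natAbs ^ @Module.finrank ℚ M _ _ (IntermediateField.module' M) ≤
      W * (NumberField.discr M).natAbs ^ C := by
  have hA : A = DivisionRing.toRatAlgebra := Subsingleton.elim _ _
  subst hA
  have h3 := h N r M F h1 h2
  convert h3 using 2

/-- **FEWS.** -/
theorem t_FEWS : S_CMPD → S_NBD → S_FIB → S_FEWS := by
  intro hCMP hN hfib
  obtain ⟨C, hC⟩ := hCMP
  refine ⟨C + 1, fun m hm Ω _ _ _ X _ _ _ _ _ e he hCn hcard => ?_⟩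
  obtain ⟨W, hW, h⟩ := hC m hm
  have hlog : 1 ≤ Nat.log 2 m := Nat.log_pos (by norm_num) (by omega)
  have hk : 1 ≤ (C + 1) * m * Nat.log 2 m := by
    have h1 : 1 ≤ (C + 1) * m := Nat.mul_pos (Nat.succ_pos C) (by omega)
    exact Nat.mul_pos h1 hlog
  have hP : CmpP ℚ Ω m ((C + 1) * m * Nat.log 2 m) W := by
    intro N _ hgal hnum r M F h1 h2 hnF hnM
    have h3 := @cmpd_any (C * m * Nat.log 2 m) m W h N _ hnum N.algebra' hgal r M F h1 h2 hnF hnM
    have h4 : 1 ≤ (NumberField.discr M).natAbs := Int.natAbs_pos.2 (NumberField.discr_ne_zero M)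
    have h5 : (NumberField.discr M).natAbs ^ (C * m * Nat.log 2 m) ≤
        (NumberField.discr M).natAbs ^ ((C + 1) * m * Nat.log 2 m) := by
      apply Nat.pow_le_pow_right h4
      gcongr
      omega
    exact h3.trans (Nat.mul_le_mul_left W h5)
  refine fews_gen hN hfib ℚ Ω X m _ W (by omega) hk hP e he hCn ?_
  push_cast
  push_cast at hcard
  nlinarith [hcard]

end Pool.Agent.D0H35.MX
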