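import Pool.Agent.D0H64.MX.Stm

/-!
# Module NBD of MX: the discriminant of the normal closure, from a base
-/

set_option autoImplicit false
set_option linter.unusedSectionVars false

open NumberField

namespace Pool.Agent.D0H35.MX

open Pool.Agent.D0H64.MX Pool.Agent.TH444.ML

section
variable {K Ω : Type} [Field K] [NumberField K] [Field Ω] [Algebra K Ω]

lemma one_le_dsc' (M : IntermediateField K Ω) : 1 ≤ dsc M := by
  unfold dsc
  split_ifs with h
  · have : (1 : ℤ) ≤ |@discr M _ h| := Int.one_le_abs (@discr_ne_zero M _ h)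
    exact_mod_cast this
  · exact le_rfl

lemma dsc_eq_of_equiv (M M' : IntermediateField K Ω) [FiniteDimensional K M]
    [FiniteDimensional K M'] (f : M ≃ₐ[K] M') : dsc M = dsc M' := by
  have h : NumberField M := NumberField.of_module_finite K M
  have h' : NumberField M' := NumberField.of_module_finite K M'
  unfold dsc
  rw [dif_pos h, dif_pos h', NumberField.discr_eq_discr_of_ringEquiv M f.toRingEquiv]

/-- the group attached to an element of `GalX` -/
theorem galx_hom [IsAlgClosure K Ω] {H X : Type} [Group H] [MulAction H X] [FaithfulSMul H X]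
    {M : IntermediateField K Ω} (e : (M →ₐ[K] Ω) ≃ X)
    (h1 : ∀ h : H, ∃ σ : Ω ≃ₐ[K] Ω, ∀ φ : M →ₐ[K] Ω, e (σ.toAlgHom.comp φ) = h • e φ)
    (h2 : ∀ σ : Ω ≃ₐ[K] Ω, ∃ h : H, ∀ φ : M →ₐ[K] Ω, e (σ.toAlgHom.comp φ) = h • e φ) :
    ∃ Φ : (Ω ≃ₐ[K] Ω) →* H, Function.Surjective Φ ∧
      (∀ σ φ, e (σ.toAlgHom.comp φ) = Φ σ • e φ) := by
  have huniq : ∀ h h' : H, (∀ φ : M →ₐ[K] Ω, h • e φ = h' • e φ) → h = h' := by
    intro h h' hh
    apply FaithfulSMul.eq_of_smul_eq_smul (α := X)
    intro x
    have := hh (e.symm x)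
    rwa [e.apply_symm_apply] at this
  choose Φ hΦ using h2
  refine ⟨⟨⟨Φ, ?_⟩, ?_⟩, ?_, hΦ⟩
  · apply huniq
    intro φ
    rw [← hΦ, one_smul]
    rfl
  · intro σ τ
    apply huniq
    intro φ
    have e1 : (σ * τ).toAlgHom.comp φ = σ.toAlgHom.comp (τ.toAlgHom.comp φ) := rfl
    show Φ (σ * τ) • e φ = (Φ σ * Φ τ) • e φ
    rw [← hΦ, e1, hΦ, hΦ, mul_smul]
  · intro h
    obtain ⟨σ, hσ⟩ := h1 h
    refine ⟨σ, ?_⟩
    apply huniq
    intro φ
    exact (hΦ σ φ).symm.trans (hσ φ)

lemma mem_ker [IsAlgClosure K Ω] {M : IntermediateField K Ω} (σ : Ω ≃ₐ[K] Ω) :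
    (∀ φ : M →ₐ[K] Ω, σ.toAlgHom.comp φ = φ) ↔
      σ ∈ (IntermediateField.normalClosure K M Ω).fixingSubgroup := by
  rw [IntermediateField.mem_fixingSubgroup_iff]
  constructor
  · intro h
    have hle : IntermediateField.normalClosure K M Ω ≤
        IntermediateField.fixedField (Subgroup.zpowers σ) := by
      rw [normalClosure_def]
      refine iSup_le fun φ => ?_
      rintro _ ⟨x, rfl⟩
      rw [IntermediateField.mem_fixedField_iff]
      intro f hf
      have hx : σ (φ x) = φ x := DFunLike.congr_fun (h φ) x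
      have hmem : σ ∈ MulAction.stabilizer (Ω ≃ₐ[K] Ω) (φ x) := hx
      have : Subgroup.zpowers σ ≤ MulAction.stabilizer (Ω ≃ₐ[K] Ω) (φ x) :=
        (Subgroup.zpowers_le).mpr hmem
      exact this hf
    intro x hx
    exact (IntermediateField.mem_fixedField_iff _ _).mp (hle hx) σ (Subgroup.mem_zpowers σ)
  · intro h φ
    ext x
    exact h (φ x) (AlgHom.fieldRange_le_normalClosure φ ⟨x, rfl⟩)

/-- discriminants of composita of conjugates -/
theorem dsc_comp (hCMP : S_CMP) [IsAlgClosure K Ω] (M : IntermediateField K Ω)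
    [FiniteDimensional K M] (S : Finset (M →ₐ[K] Ω)) :
    S.Nonempty → FiniteDimensional K (⨆ φ ∈ S, φ.fieldRange : IntermediateField K Ω) ∧
      Module.finrank K M ∣ Module.finrank K (⨆ φ ∈ S, φ.fieldRange : IntermediateField K Ω) ∧
      dsc (⨆ φ ∈ S, φ.fieldRange : IntermediateField K Ω) ≤
        dsc M ^ (S.card * (Module.finrank K (⨆ φ ∈ S, φ.fieldRange : IntermediateField K Ω) /
          Module.finrank K M)) := by
  classical
  have hfd : ∀ φ : M →ₐ[K] Ω, FiniteDimensional K φ.fieldRange := fun φ =>
    Module.Finite.equiv φ.equivFieldRange.toLinearEquiv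
  have hfr : ∀ φ : M →ₐ[K] Ω, Module.finrank K φ.fieldRange = Module.finrank K M := fun φ =>
    (φ.equivFieldRange.toLinearEquiv.finrank_eq).symm
  have hdsc : ∀ φ : M →ₐ[K] Ω, dsc φ.fieldRange = dsc M := by
    intro φ
    have := hfd φ
    exact (dsc_eq_of_equiv M φ.fieldRange φ.equivFieldRange).symm
  have hm : 0 < Module.finrank K M := Module.finrank_pos
  induction S using Finset.induction_on with
  | empty => intro h; exact absurd h Finset.not_nonempty_empty
  | insert φ S hφ ih =>
    intro _
    rcases S.eq_empty_or_nonempty with hS | hS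
    · subst hS
      have hsing : (⨆ ψ ∈ (insert φ ∅ : Finset (M →ₐ[K] Ω)), ψ.fieldRange :
          IntermediateField K Ω) = φ.fieldRange := by
        rw [Finset.iSup_insert]
        simp
      rw [hsing]
      refine ⟨hfd φ, by rw [hfr], ?_⟩
      rw [hdsc, hfr, Nat.div_self hm, Finset.card_insert_of_notMem hφ, Finset.card_empty]
      simp
    · obtain ⟨i1, i2, i3⟩ := ih hS
      set E : IntermediateField K Ω := ⨆ φ ∈ S, φ.fieldRange with hE
      have hsup : (⨆ ψ ∈ insert φ S, ψ.fieldRange : IntermediateField K Ω) = E ⊔ φ.fieldRange := by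
        rw [Finset.iSup_insert, sup_comm]
      rw [hsup]
      have := hfd φ
      have hF : FiniteDimensional K (E ⊔ φ.fieldRange : IntermediateField K Ω) :=
        IntermediateField.finiteDimensional_sup E φ.fieldRange
      have hd1 : Module.finrank K E ∣ Module.finrank K (E ⊔ φ.fieldRange : IntermediateField K Ω) :=
        IntermediateField.finrank_dvd_of_le_right le_sup_left
      refine ⟨hF, i2.trans hd1, ?_⟩
      refine (hCMP K Ω E φ.fieldRange).trans ?_
      rw [hdsc, hfr]
      rw [Finset.card_insert_of_notMem hφ]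
      obtain ⟨a, ha⟩ := i2
      obtain ⟨b, hb⟩ := hd1
      have hE0 : 0 < Module.finrank K E := Module.finrank_pos
      have ha0 : 0 < a := by
        rcases Nat.eq_zero_or_pos a with h | h
        · rw [h, mul_zero] at ha
          omega
        · exact h
      have e1 : Module.finrank K (E ⊔ φ.fieldRange : IntermediateField K Ω) / Module.finrank K E
          = b := by
        rw [hb]
        exact Nat.mul_div_cancel_left b hE0
      have e2 : Module.finrank K E / Module.finrank K M = a := by
        rw [ha]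
        exact Nat.mul_div_cancel_left a hm
      have e3 : Module.finrank K (E ⊔ φ.fieldRange : IntermediateField K Ω) / Module.finrank K M
          = a * b := by
        rw [hb, ha, mul_assoc]
        exact Nat.mul_div_cancel_left (a * b) hm
      rw [e1, e3]
      rw [e2] at i3
      have hd0 : 0 ≤ dsc E := zero_le_one.trans (one_le_dsc' E)
      have hdM : 0 ≤ dsc M := zero_le_one.trans (one_le_dsc' M)
      calc dsc E ^ b * dsc M ^ (a * b) ≤ (dsc M ^ (S.card * a)) ^ b * dsc M ^ (a * b) := by
            apply mul_le_mul_of_nonneg_right _ (pow_nonneg hdM _)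
            exact pow_le_pow_left₀ hd0 i3 b
        _ = dsc M ^ ((S.card + 1) * (a * b)) := by
            rw [← pow_mul, ← pow_add]
            congr 1
            ring

end

theorem t_NBD : S_CMP → S_NBD := by
  intro hCMP K Ω _ _ _ _ _ H X _ _ _ _ _ B hB hbase M hM
  obtain ⟨hfd, e, h1, h2⟩ := hM
  classical
  obtain ⟨Φ, hΦs, hΦ⟩ := galx_hom e h1 h2
  have hnorm : Normal K Ω := IsAlgClosure.normal K Ω
  have hac : IsAlgClosed Ω := IsAlgClosure.isAlgClosed K
  have hgalΩ : IsGalois K Ω := by
    constructor
  set N := IntermediateField.normalClosure K M Ω with hN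
  have hker : Φ.ker = (AlgEquiv.restrictNormalHom N : (Ω ≃ₐ[K] Ω) →* (N ≃ₐ[K] N)).ker := by
    rw [IntermediateField.restrictNormalHom_ker]
    ext σ
    rw [MonoidHom.mem_ker, ← mem_ker (M := M)]
    constructor
    · intro h φ
      apply e.injective
      rw [hΦ, h, one_smul]
    · intro h
      apply FaithfulSMul.eq_of_smul_eq_smul (α := X)
      intro x
      have := hΦ σ (e.symm x)
      rw [h (e.symm x), e.apply_symm_apply] at this
      rw [← this, one_smul]
  have hiso : Nonempty ((N ≃ₐ[K] N) ≃* H) := by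
    have s1 : Function.Surjective (AlgEquiv.restrictNormalHom N : (Ω ≃ₐ[K] Ω) →* (N ≃ₐ[K] N)) :=
      AlgEquiv.restrictNormalHom_surjective Ω
    exact ⟨((QuotientGroup.quotientKerEquivOfSurjective _ s1).symm.trans
      (QuotientGroup.quotientMulEquivOfEq hker.symm)).trans
      (QuotientGroup.quotientKerEquivOfSurjective Φ hΦs)⟩
  have hNfd : FiniteDimensional K N := inferInstance
  have hNgal : IsGalois K N := inferInstance
  refine ⟨⟨hNfd, hNgal, hiso⟩, ?_⟩
  have hcardH : Module.finrank K N = Nat.card H := by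
    rw [← IsGalois.card_aut_eq_finrank K N]
    exact Nat.card_congr hiso.some.toEquiv
  have hcardX : Module.finrank K M = Nat.card X := by
    rw [← AlgHom.card K M Ω, ← Nat.card_eq_fintype_card]
    exact Nat.card_congr e
  set S : Finset (M →ₐ[K] Ω) := B.map e.symm.toEmbedding with hS
  have hSne : S.Nonempty := by
    rw [hS, Finset.map_nonempty]
    exact hB
  have hScard : S.card = B.card := Finset.card_map _
  have hEN : (⨆ φ ∈ S, φ.fieldRange : IntermediateField K Ω) = N := by
    apply le_antisymm
    · refine iSup₂_le fun φ _ => ?_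
      exact AlgHom.fieldRange_le_normalClosure φ
    · set E : IntermediateField K Ω := ⨆ φ ∈ S, φ.fieldRange with hE
      have hle : E.fixingSubgroup ≤ N.fixingSubgroup := by
        intro σ hσ
        rw [IntermediateField.mem_fixingSubgroup_iff] at hσ
        rw [← mem_ker (M := M)]
        have h3 : Φ σ = 1 := by
          apply hbase
          intro x hx
          have hmem : e.symm x ∈ S := by
            rw [hS, Finset.mem_map]
            exact ⟨x, hx, rfl⟩
          have h4 : σ.toAlgHom.comp (e.symm x) = e.symm x := by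
            ext y
            apply hσ
            have : (e.symm x).fieldRange ≤ E := le_iSup₂_of_le (e.symm x) hmem le_rfl
            exact this ⟨y, rfl⟩
          have := hΦ σ (e.symm x)
          rw [h4, e.apply_symm_apply] at this
          exact this.symm
        intro φ
        apply e.injective
        rw [hΦ, h3, one_smul]
      have e1 := InfiniteGalois.fixedField_fixingSubgroup E
      have e2 := InfiniteGalois.fixedField_fixingSubgroup N
      rw [← e1, ← e2]
      intro x hx
      rw [IntermediateField.mem_fixedField_iff] at hx ⊢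
      intro f hf
      exact hx f (hle hf)
  obtain ⟨-, -, h3⟩ := dsc_comp hCMP M S hSne
  rw [hEN, hScard, hcardH, hcardX] at h3
  exact h3

end Pool.Agent.D0H35.MX

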